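import Pool.Agent.U692.RT.R2

/-! Project RT, package SPH: integral points on spheres. -/

set_option autoImplicit false

namespace Pool.Agent.U692.RT

open Pool.Agent.U136.RT.Lab Pool.Agent.N983.RT

theorem sph_of_R2 (h : S_R2) : S_SPH := by
  intro ε hε
  obtain ⟨C, hC, h⟩ := h ε hε
  refine ⟨3 * C, by positivity, fun R hR n => ?_⟩
  classical
  have hR0 : (1 : ℝ) ≤ R := by exact_mod_cast hR
  have hmaps : ∀ k ∈ (cub R).filter (fun k : Wv => ∑ i, k i ^ 2 = n),
      k 0 ∈ Finset.Icc (-(R : ℤ)) (R : ℤ) := by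
    intro k hk
    have hk1 := (Finset.mem_filter.mp hk).1
    unfold cub at hk1
    exact Fintype.mem_piFinset.mp hk1 0
  rw [Finset.card_eq_sum_card_fiberwise hmaps]
  have hfib : ∀ x ∈ Finset.Icc (-(R : ℤ)) (R : ℤ),
      (((((cub R).filter (fun k : Wv => ∑ i, k i ^ 2 = n)).filter fun k => k 0 = x).card : ℕ) : ℝ)
        ≤ C * (R : ℝ) ^ ε := by
    intro x _
    refine le_trans ?_ (h R hR (n - x ^ 2))
    refine Nat.cast_le.mpr (Finset.card_le_card_of_injOn (fun k : Wv => (k 1, k 2)) ?_ ?_)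
    · intro k hk
      have hk' := Finset.mem_filter.mp (Finset.mem_coe.mp hk)
      have hk1 := Finset.mem_filter.mp hk'.1
      have hk2 := hk1.1
      unfold cub at hk2
      have hk3 := Fintype.mem_piFinset.mp hk2
      have hk4 := hk1.2
      rw [Fin.sum_univ_three, hk'.2] at hk4
      refine Finset.mem_coe.mpr (Finset.mem_filter.mpr ⟨Finset.mem_product.mpr
        ⟨hk3 1, hk3 2⟩, ?_⟩)
      show k 1 ^ 2 + k 2 ^ 2 = n - x ^ 2
      linarith
    · intro k hk l hl hkl
      have hk' := (Finset.mem_filter.mp (Finset.mem_coe.mp hk)).2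
      have hl' := (Finset.mem_filter.mp (Finset.mem_coe.mp hl)).2
      have h1 : k 1 = l 1 := congrArg Prod.fst hkl
      have h2 : k 2 = l 2 := congrArg Prod.snd hkl
      funext i
      fin_cases i
      · exact hk'.trans hl'.symm
      · exact h1
      · exact h2
  have hcard : ((Finset.Icc (-(R : ℤ)) (R : ℤ)).card : ℝ) ≤ 3 * R := by
    rw [Int.card_Icc]
    have : ((R : ℤ) + 1 - -(R : ℤ)).toNat = 2 * R + 1 := by omega
    rw [this]
    push_cast
    linarith
  push_cast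
  calc ∑ x ∈ Finset.Icc (-(R : ℤ)) (R : ℤ),
      (((((cub R).filter (fun k : Wv => ∑ i, k i ^ 2 = n)).filter fun k => k 0 = x).card : ℕ) : ℝ)
      ≤ ∑ _x ∈ Finset.Icc (-(R : ℤ)) (R : ℤ), C * (R : ℝ) ^ ε := Finset.sum_le_sum hfib
    _ = ((Finset.Icc (-(R : ℤ)) (R : ℤ)).card : ℝ) * (C * (R : ℝ) ^ ε) := by
        rw [Finset.sum_const, nsmul_eq_mul]
    _ ≤ (3 * R) * (C * (R : ℝ) ^ ε) := mul_le_mul_of_nonneg_right hcard (by positivity)
    _ = 3 * C * (R : ℝ) ^ (1 + ε) := by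
        rw [Real.rpow_add (by linarith), Real.rpow_one]
        ring

theorem t_SPH : S_SPH := sph_of_R2 t_R2

end Pool.Agent.U692.RT
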