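import Pool.Agent.U136.RT.LabStm
import Pool.Agent.H353R2.Z2

/-! Project RT, package R2: the number of the representations of `n` as a sum of two squares is at
most `C n ^ ε`. -/

set_option autoImplicit false

namespace Pool.Agent.U692.RT

open Pool.Agent.U136.RT.Lab

/-- the divisors of `a` up to units are at most `N` -/
def Cov (a : GaussianInt) (N : ℕ) : Prop :=
  ∃ F : Finset GaussianInt, F.card ≤ N ∧ ∀ d, d ∣ a → ∃ f ∈ F, Associated d f

theorem cov_mono {a : GaussianInt} {N M : ℕ} (ha : Cov a N) (h : N ≤ M) : Cov a M := by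
  obtain ⟨F, hF, h1⟩ := ha
  exact ⟨F, hF.trans h, h1⟩

theorem cov_mul {a b : GaussianInt} {N M : ℕ} (ha : Cov a N) (hb : Cov b M) :
    Cov (a * b) (N * M) := by
  classical
  obtain ⟨F, hF, h1⟩ := ha
  obtain ⟨G, hG, h2⟩ := hb
  refine ⟨Finset.image₂ (· * ·) F G,
    (Finset.card_image₂_le _ _ _).trans (Nat.mul_le_mul hF hG), fun d hd => ?_⟩
  obtain ⟨d1, d2, h3, h4, rfl⟩ := exists_dvd_and_dvd_of_dvd_mul hd
  obtain ⟨f, hf, hf'⟩ := h1 d1 h3
  obtain ⟨g, hg, hg'⟩ := h2 d2 h4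
  exact ⟨f * g, Finset.mem_image₂_of_mem hf hg, hf'.mul_mul hg'⟩

theorem cov_pow {π : GaussianInt} (hπ : Prime π) (e : ℕ) : Cov (π ^ e) (e + 1) := by
  classical
  refine ⟨(Finset.range (e + 1)).image (fun i => π ^ i),
    Finset.card_image_le.trans (by simp), fun d hd => ?_⟩
  obtain ⟨i, hi, h⟩ := (dvd_prime_pow hπ _).1 hd
  exact ⟨π ^ i, Finset.mem_image_of_mem _ (Finset.mem_range.2 (by omega)), h⟩

theorem cov_one : Cov 1 1 :=
  ⟨{1}, by simp, fun d hd => ⟨1, by simp, associated_one_iff_isUnit.2 (isUnit_of_dvd_one hd)⟩⟩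

theorem prime_of_norm {π : GaussianInt} {p : ℕ} (hp : p.Prime) (h : π.norm = p) : Prime π := by
  rw [← irreducible_iff_prime]
  refine ⟨fun hu => ?_, fun x y hxy => ?_⟩
  · have := Zsqrtd.norm_eq_one_iff.2 hu
    rw [h, Int.natAbs_natCast] at this
    exact hp.one_lt.ne' this
  · have h1 : x.norm.natAbs * y.norm.natAbs = p := by
      rw [← Int.natAbs_mul, ← Zsqrtd.norm_mul, ← hxy, h, Int.natAbs_natCast]
    rcases (Nat.dvd_prime hp).1 (Dvd.intro _ h1) with h2 | h2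
    · exact Or.inl (Zsqrtd.norm_eq_one_iff.1 h2)
    · refine Or.inr (Zsqrtd.norm_eq_one_iff.1 ?_)
      rw [h2] at h1
      exact Nat.eq_of_mul_eq_mul_left hp.pos (by rw [h1, mul_one])

theorem cov_prime {p : ℕ} (hp : p.Prime) (e : ℕ) : Cov ((p : GaussianInt) ^ e) ((e + 1) ^ 2) := by
  have := Fact.mk hp
  by_cases h : p % 4 = 3
  · refine cov_mono (cov_pow (GaussianInt.prime_of_nat_prime_of_mod_four_eq_three p h) e) ?_
    nlinarith
  · obtain ⟨a, b, hab⟩ := Nat.Prime.sq_add_sq h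
    have h1 : (⟨a, b⟩ : GaussianInt).norm = p := by
      rw [Zsqrtd.norm_def, ← hab]
      push_cast
      ring
    have h2 : (⟨a, -b⟩ : GaussianInt).norm = p := by
      rw [Zsqrtd.norm_def, ← hab]
      push_cast
      ring
    have h3 : (p : GaussianInt) = ⟨a, b⟩ * ⟨a, -b⟩ := by
      rw [← hab]
      ext
      · simp [sq]
      · simp [sq]; ring
    rw [h3, mul_pow, sq (e + 1)]
    exact cov_mul (cov_pow (prime_of_norm hp h1) e) (cov_pow (prime_of_norm hp h2) e)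

theorem cov_nat (n : ℕ) : n ≠ 0 → Cov (n : GaussianInt) (n.divisors.card ^ 2) := by
  induction n using Nat.recOnPosPrimePosCoprime with
  | prime_pow p e hp he =>
    intro _
    rw [Nat.divisors_prime_pow hp, Finset.card_map, Finset.card_range, Nat.cast_pow]
    exact cov_prime hp e
  | zero => exact fun h => absurd rfl h
  | one =>
    intro _
    simpa using cov_one
  | coprime a b ha hb hab h1 h2 =>
    intro _
    rw [Nat.Coprime.card_divisors_mul hab, mul_pow, Nat.cast_mul]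
    exact cov_mul (h1 (by omega)) (h2 (by omega))

theorem card_norm (n : ℕ) (hn : n ≠ 0) (R : ℕ) :
    ((Finset.Icc (-(R : ℤ)) R ×ˢ Finset.Icc (-(R : ℤ)) R).filter
      fun p : ℤ × ℤ => p.1 ^ 2 + p.2 ^ 2 = (n : ℤ)).card ≤ n.divisors.card ^ 2 * 9 := by
  classical
  obtain ⟨F, hF, h⟩ := cov_nat n hn
  obtain ⟨U, hU⟩ : ∃ U : Finset GaussianInt,
      U = (Finset.Icc (-1 : ℤ) 1 ×ˢ Finset.Icc (-1 : ℤ) 1).image fun p => ⟨p.1, p.2⟩ := ⟨_, rfl⟩
  have hU9 : U.card ≤ 9 := by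
    rw [hU]
    refine Finset.card_image_le.trans ?_
    simp
  refine le_trans (Finset.card_le_card_of_injOn (t := Finset.image₂ (· * ·) F U)
    (fun p => (⟨p.1, p.2⟩ : GaussianInt)) ?_ ?_)
    ((Finset.card_image₂_le _ _ _).trans (Nat.mul_le_mul hF hU9))
  · intro p hp
    rw [Finset.mem_coe, Finset.mem_filter] at hp
    have hz : (⟨p.1, p.2⟩ : GaussianInt) ∣ (n : GaussianInt) := by
      refine ⟨⟨p.1, -p.2⟩, ?_⟩
      have h1 := hp.2
      ext
      · simp only [Zsqrtd.re_natCast, Zsqrtd.re_mul]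
        rw [← h1]
        ring
      · simp only [Zsqrtd.im_natCast, Zsqrtd.im_mul]
        ring
    obtain ⟨f, hf, hf2⟩ := h _ hz
    obtain ⟨u, hu⟩ := hf2.symm
    refine Finset.mem_coe.2 (Finset.mem_image₂.2 ⟨f, hf, u, ?_, hu⟩)
    have h2 : (u : GaussianInt).norm = 1 := by
      have h3 := Zsqrtd.norm_eq_one_iff.2 u.isUnit
      have h4 : 0 ≤ (u : GaussianInt).norm := GaussianInt.norm_nonneg _
      omega
    rw [Zsqrtd.norm_def] at h2
    rw [hU]
    refine Finset.mem_image.2 ⟨((u : GaussianInt).re, (u : GaussianInt).im), ?_, rfl⟩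
    rw [Finset.mem_product, Finset.mem_Icc, Finset.mem_Icc]
    have h5 : (u : GaussianInt).re ^ 2 ≤ 1 := by nlinarith [sq_nonneg (u : GaussianInt).im]
    have h6 : (u : GaussianInt).im ^ 2 ≤ 1 := by nlinarith [sq_nonneg (u : GaussianInt).re]
    exact ⟨abs_le.1 ((sq_le_one_iff_abs_le_one _).1 h5), abs_le.1 ((sq_le_one_iff_abs_le_one _).1 h6)⟩
  · intro p _ q _ hpq
    simp only [Zsqrtd.mk.injEq] at hpq
    exact Prod.ext hpq.1 hpq.2

theorem t_R2 : S_R2 := by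
  intro ε hε
  obtain ⟨C, hC, hd⟩ := H353.divisor_bound_real (ε / 4) (by positivity)
  refine ⟨C ^ 2 * 9 * 2 ^ (ε / 2) + 1, by positivity, fun R hR n => ?_⟩
  have hR0 : (0 : ℝ) < R := by exact_mod_cast hR
  have hR1 : (1 : ℝ) ≤ (R : ℝ) ^ ε := Real.one_le_rpow (by exact_mod_cast hR) hε.le
  have hbig : 0 ≤ C ^ 2 * 9 * (2 : ℝ) ^ (ε / 2) * (R : ℝ) ^ ε := by positivity
  rcases lt_trichotomy n 0 with hn | rfl | hn
  · rw [Finset.filter_false_of_mem fun p _ => by nlinarith [sq_nonneg p.1, sq_nonneg p.2]]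
    simp only [Finset.card_empty, Nat.cast_zero]
    positivity
  · have h1 : ((Finset.Icc (-(R : ℤ)) R ×ˢ Finset.Icc (-(R : ℤ)) R).filter
        fun p : ℤ × ℤ => p.1 ^ 2 + p.2 ^ 2 = 0) ⊆ {(0, 0)} := by
      intro p hp
      rw [Finset.mem_filter] at hp
      have h2 : p.1 = 0 := by nlinarith [sq_nonneg p.1, sq_nonneg p.2, hp.2]
      have h3 : p.2 = 0 := by nlinarith [sq_nonneg p.1, sq_nonneg p.2, hp.2]
      rw [Finset.mem_singleton]
      exact Prod.ext h2 h3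
    have h2 : ((((Finset.Icc (-(R : ℤ)) R ×ˢ Finset.Icc (-(R : ℤ)) R).filter
        fun p : ℤ × ℤ => p.1 ^ 2 + p.2 ^ 2 = 0).card : ℕ) : ℝ) ≤ 1 := by
      exact_mod_cast (Finset.card_le_card h1).trans (by simp)
    rw [add_mul]
    linarith
  · obtain ⟨m, rfl⟩ := Int.eq_ofNat_of_zero_le hn.le
    have hm : m ≠ 0 := by
      rintro rfl
      exact absurd hn (by simp)
    by_cases hmR : m ≤ 2 * R ^ 2
    · have h1 : ((((Finset.Icc (-(R : ℤ)) R ×ˢ Finset.Icc (-(R : ℤ)) R).filter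
          fun p : ℤ × ℤ => p.1 ^ 2 + p.2 ^ 2 = (m : ℤ)).card : ℕ) : ℝ) ≤
          (m.divisors.card : ℝ) ^ 2 * 9 := by
        exact_mod_cast card_norm m hm R
      have h2 : (m.divisors.card : ℝ) ^ 2 ≤ (C * (m : ℝ) ^ (ε / 4)) ^ 2 :=
        pow_le_pow_left₀ (Nat.cast_nonneg _) (hd m hm) 2
      have h3 : ((m : ℝ) ^ (ε / 4)) ^ 2 = (m : ℝ) ^ (ε / 2) := by
        rw [← Real.rpow_natCast, ← Real.rpow_mul (Nat.cast_nonneg _)]
        congr 1
        push_cast
        ring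
      have h4 : (m : ℝ) ^ (ε / 2) ≤ 2 ^ (ε / 2) * (R : ℝ) ^ ε := by
        have h5 : (m : ℝ) ≤ 2 * (R : ℝ) ^ 2 := by exact_mod_cast hmR
        refine (Real.rpow_le_rpow (Nat.cast_nonneg _) h5 (by positivity)).trans (le_of_eq ?_)
        rw [Real.mul_rpow (by norm_num) (by positivity), ← Real.rpow_natCast,
          ← Real.rpow_mul hR0.le]
        congr 2
        push_cast
        ring
      have h5 : (C * (m : ℝ) ^ (ε / 4)) ^ 2 = C ^ 2 * (m : ℝ) ^ (ε / 2) := by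
        rw [mul_pow, h3]
      have h6 : C ^ 2 * (m : ℝ) ^ (ε / 2) ≤ C ^ 2 * (2 ^ (ε / 2) * (R : ℝ) ^ ε) :=
        mul_le_mul_of_nonneg_left h4 (by positivity)
      show ((((Finset.Icc (-(R : ℤ)) R ×ˢ Finset.Icc (-(R : ℤ)) R).filter
          fun p : ℤ × ℤ => p.1 ^ 2 + p.2 ^ 2 = (m : ℤ)).card : ℕ) : ℝ) ≤ _
      nlinarith
    · have h1 : ((Finset.Icc (-(R : ℤ)) R ×ˢ Finset.Icc (-(R : ℤ)) R).filter
          fun p : ℤ × ℤ => p.1 ^ 2 + p.2 ^ 2 = (m : ℤ)) = ∅ := by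
        refine Finset.filter_false_of_mem fun p hp h2 => hmR ?_
        rw [Finset.mem_product, Finset.mem_Icc, Finset.mem_Icc] at hp
        have h3 : p.1 ^ 2 ≤ (R : ℤ) ^ 2 := sq_le_sq' hp.1.1 hp.1.2
        have h4 : p.2 ^ 2 ≤ (R : ℤ) ^ 2 := sq_le_sq' hp.2.1 hp.2.2
        have h5 : (m : ℤ) ≤ 2 * (R : ℤ) ^ 2 := by
          rw [← h2]
          linarith
        exact_mod_cast h5
      rw [h1]
      simp only [Finset.card_empty, Nat.cast_zero]
      positivity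

end Pool.Agent.U692.RT
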